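import Pool.Agent.helper34.AC.Spec3

set_option autoImplicit false

open Filter Topology

namespace Pool.Agent.helper34.AC

theorem TOB_pascal (a : ℕ → Polynomial ℝ) (n : ℕ) :
    ∑ k ∈ Finset.range (n + 2), (((n + 1).choose k : ℕ) : Polynomial ℝ) * a k =
      ∑ k ∈ Finset.range (n + 1), ((n.choose k : ℕ) : Polynomial ℝ) * a k +
      ∑ k ∈ Finset.range (n + 1), ((n.choose k : ℕ) : Polynomial ℝ) * a (k + 1) := by
  rw [Finset.sum_range_succ', Finset.sum_range_succ' (fun k => ((n.choose k : ℕ) :
    Polynomial ℝ) * a k) n]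
  have h1 : ∑ k ∈ Finset.range (n + 1), (((n + 1).choose (k + 1) : ℕ) : Polynomial ℝ) * a (k + 1) =
      ∑ k ∈ Finset.range (n + 1), ((n.choose k : ℕ) : Polynomial ℝ) * a (k + 1) +
      ∑ k ∈ Finset.range (n + 1), ((n.choose (k + 1) : ℕ) : Polynomial ℝ) * a (k + 1) := by
    rw [← Finset.sum_add_distrib]
    refine Finset.sum_congr rfl fun k _ => ?_
    rw [Nat.choose_succ_succ]
    push_cast
    ring
  rw [h1, Finset.sum_range_succ (fun k => ((n.choose (k + 1) : ℕ) : Polynomial ℝ) * a (k + 1)) n,
    Nat.choose_succ_self]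
  simp only [Nat.choose_zero_right]
  push_cast
  ring

theorem TOB_rec (n : ℕ) : Tou (n + 1) = Polynomial.X *
    ∑ k ∈ Finset.range (n + 1), ((n.choose k : ℕ) : Polynomial ℝ) * Tou k := by
  induction n with
  | zero => simp [Tou]
  | succ n ih =>
    rw [TOB_pascal]
    set S : Polynomial ℝ := ∑ k ∈ Finset.range (n + 1), ((n.choose k : ℕ) : Polynomial ℝ) * Tou k
      with hS
    have hd : Polynomial.X * Polynomial.derivative S =
        ∑ k ∈ Finset.range (n + 1), ((n.choose k : ℕ) : Polynomial ℝ) * Tou (k + 1) -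
        Polynomial.X * S := by
      rw [hS, Polynomial.derivative_sum, Finset.mul_sum, Finset.mul_sum, ← Finset.sum_sub_distrib]
      refine Finset.sum_congr rfl fun k _ => ?_
      rw [Polynomial.derivative_mul, Polynomial.derivative_natCast]
      have : Tou (k + 1) = Polynomial.X * (Tou k + Polynomial.derivative (Tou k)) := rfl
      rw [this]
      ring
    have h2 : Tou (n + 1 + 1) =
        Polynomial.X * (Tou (n + 1) + Polynomial.derivative (Tou (n + 1))) := rfl
    rw [h2, ih, Polynomial.derivative_mul, Polynomial.derivative_X, one_mul, hd]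
    ring

theorem TOB_one (hB : BRC_stmt) (n : ℕ) : (Tou n).eval 1 = bl n := by
  induction n using Nat.strong_induction_on with
  | _ n ih =>
    cases n with
    | zero => simp [Tou, bl]
    | succ n =>
      rw [TOB_rec, Polynomial.eval_mul, Polynomial.eval_X, one_mul, Polynomial.eval_finsetSum,
        ← hB.2.2.2.1 n]
      unfold F
      refine Finset.sum_congr rfl fun k hk => ?_
      rw [Finset.mem_range] at hk
      rw [Polynomial.eval_mul, Polynomial.eval_natCast, ih k hk, one_pow, mul_one]

theorem TOB_th_add (P Q : Polynomial ℝ) : th (P + Q) = th P + th Q := by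
  unfold th
  rw [Polynomial.derivative_add]
  ring

theorem TOB_th_X (P : Polynomial ℝ) : th (Polynomial.X * P) = Polynomial.X * P +
    Polynomial.X * th P := by
  unfold th
  rw [Polynomial.derivative_mul, Polynomial.derivative_X]
  ring

theorem TOB_succ (n : ℕ) : Tou (n + 1) = Polynomial.X * Tou n + th (Tou n) := by
  unfold th
  rw [← mul_add]
  rfl

theorem TOB (hB : BRC_stmt) : TOB_stmt := by
  have h0 := TOB_one hB
  have h1 : ∀ n : ℕ, bl (n + 1) = (th (Tou n)).eval 1 + (Tou n).eval 1 := by
    intro n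
    rw [← h0, TOB_succ, Polynomial.eval_add, Polynomial.eval_mul, Polynomial.eval_X]
    ring
  have h2 : ∀ n : ℕ, bl (n + 2) = (th (th (Tou n))).eval 1 + 2 * (th (Tou n)).eval 1 +
      2 * (Tou n).eval 1 := by
    intro n
    have := h1 (n + 1)
    rw [show n + 1 + 1 = n + 2 from rfl] at this
    rw [this, TOB_succ]
    simp only [TOB_th_add, TOB_th_X, Polynomial.eval_add, Polynomial.eval_mul, Polynomial.eval_X]
    ring
  have h3 : ∀ n : ℕ, bl (n + 3) = (th (th (th (Tou n)))).eval 1 + 3 * (th (th (Tou n))).eval 1 +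
      6 * (th (Tou n)).eval 1 + 5 * (Tou n).eval 1 := by
    intro n
    have := h2 (n + 1)
    rw [show n + 1 + 2 = n + 3 from rfl] at this
    rw [this, TOB_succ]
    simp only [TOB_th_add, TOB_th_X, Polynomial.eval_add, Polynomial.eval_mul, Polynomial.eval_X]
    ring
  refine ⟨h0, h1, h2, h3, ?_⟩
  intro n
  have := h3 (n + 1)
  rw [show n + 1 + 3 = n + 4 from rfl] at this
  rw [this, TOB_succ]
  simp only [TOB_th_add, TOB_th_X, Polynomial.eval_add, Polynomial.eval_mul, Polynomial.eval_X]
  ring

end Pool.Agent.helper34.AC
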